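import Pool.Agent.helper968_nsop1.Final

/-!
A countably categorical NSOP₁ theory that fails the existence axiom (negative answer to Q1, hence
also to Q2).

The definitions used in the statement are in `Pool.Agent.helper968_exist.Defs` (namespace `EXA`) and
`Pool.Agent.helper968_kim.Defs` (namespace `SKF`).

The theory. The structures consist of vertices, points (predicate `P`) and colours (predicate `C`).
The vertices carry a graph; every edge `{z, w}` has a colour at `z` (`K(z, w, c)`) and a colour at
`w` (`K(w, z, c)`). Every point `x` chooses at most two colours at each vertex `z` (`S(x, z, c)`)
such that for each edge `{z, w}` it has chosen the colour of the edge at `z` or the one at `w`. The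
graph is sparse: `δ(X) = 2|X| - |E(X)|` satisfies `4|X| ≤ 3^{δ(X)}` for nonempty finite `X`. A set
`A` is closed in `B` if `δ(X) > δ(A)` for all `A ⊊ X ⊆ B` and `A` contains the colours in `B`
assigned by `K` and `S` to elements of `A`. Closed sets amalgamate freely (the edges between a
closed set and the rest can be oriented so that each new vertex has at most two outgoing edges, and
a point chooses at a new vertex the colours of these edges), so there is a countable generic
structure; closures of finite sets are finite and bounded, so its theory `T` is countably
categorical (Hrushovski's construction).

Forking. Let `O(x; z, w)` be `∃ c, K(z, w, c) ∧ S(x, z, c)`. If `{u, v}` is an edge which is closed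
together with its two colours, then `O(x; u, v)` divides over `∅`: there is an indiscernible
sequence `(w_i)` of neighbours of `u` with `w_0 = v` such that the colours of the edges `{u, w_i}`
at `u` are distinct, and no point chooses three of them. As `P(x)` implies `O(x; u, v) ∨ O(x; v,
u)`, the type over `∅` of a point forks over `∅`.

NSOP₁. Closed sets `A`, `B` are independent if `δ(Z) ≥ δ(A) + δ(B) - δ(A ∩ B)` for all `Z ⊇ A ∪ B`.
For this independence there is an amalgamation theorem for three closed sets over a closed set
(`indep_amalg`): a point chooses colours on the union of the three pairwise closures by orienting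
the remaining edges. Given an SOP₁ tree one extracts an array `(c_{i,0}, c_{i,1})` such that
`c_{i,0}`, `c_{i,1}` have the same type over the closure of the preceding rows, `φ(x; c_{i,0})`,
`i < n`, are simultaneously realised, and `φ(x; c_{i,1}) ∧ φ(x; c_{j,0})` is inconsistent for
`i ≤ j`. A counting argument with the rank `δ` gives a finite closed base and `p < q` such that a
realisation, row `p` and row `q` are pairwise independent over the base up to colours in the base of
row `p`; amalgamation gives a realisation of `φ(x; c_{p,1}) ∧ φ(x; c_{q,0})`.
-/

namespace Pool.Agent.Results.MP_4b3c04_lc.OmegaCatNsop1ExistenceFails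

open FirstOrder FirstOrder.Language Cardinal SKF EXA

/-- There is a complete countably categorical NSOP₁ theory `T` (with a monster model) such that in
every model `U` of `T`, in particular in every monster model, some complete type over `∅` in one
variable forks over `∅`. -/
theorem result : ∃ (L : FirstOrder.Language.{0, 0}) (T : L.Theory), T.IsComplete ∧
    CountablyCategorical T ∧ NSOP1 T ∧
    (∃ (κ : Cardinal.{0}) (U : Type) (_ : L.Structure U), IsMonster T κ U) ∧
    ∀ (U : Type) [L.Structure U], U ⊨ T →
      ∃ p : Set (Fml L 1 U), IsTypeOver (∅ : Set U) p ∧ ∃ ψ ∈ p, Forks (∅ : Set U) ψ :=
  H968F.main

end Pool.Agent.Results.MP_4b3c04_lc.OmegaCatNsop1ExistenceFails
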